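import Mathlib

open Laplacian InnerProductSpace Real MeasureTheory
open scoped Topology ContDiff

namespace Pool.Agent.Results.MP_885c89_an.UnboundedSolutions

section General

variable {E : Type*} [NormedAddCommGroup E] [InnerProductSpace ℝ E] [FiniteDimensional ℝ E]

/-- The iterated operator `(-Δ)^m` (`Δ` is the Laplacian of Mathlib). -/
noncomputable def negLapPow (m : ℕ) (f : E → ℝ) : E → ℝ := (fun g : E → ℝ => -(Δ g))^[m] f

end General

/-- `u` is a solution of `(-Δ)^m u = V e^{2mu}` in `ℝ^{2m}` in the sense of distributions: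
`u` is locally integrable and `∫ u (-Δ)^m φ = ∫ V e^{2mu} φ` for every `φ ∈ C_c^∞`. -/
def IsDistribSolution (m : ℕ) (V u : EuclideanSpace ℝ (Fin (2 * m)) → ℝ) : Prop :=
  LocallyIntegrable u ∧
    ∀ φ : EuclideanSpace ℝ (Fin (2 * m)) → ℝ, ContDiff ℝ ∞ φ → HasCompactSupport φ →
      ∫ x, u x * negLapPow m φ x = ∫ x, V x * Real.exp (2 * m * u x) * φ x

/-- `u` is essentially bounded from above. -/
def EssBddAbove {m : ℕ} (u : EuclideanSpace ℝ (Fin (2 * m)) → ℝ) : Prop :=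
  ∃ C : ℝ, ∀ᵐ x, u x ≤ C

section Aux

variable {E : Type*} [NormedAddCommGroup E] [InnerProductSpace ℝ E] [FiniteDimensional ℝ E]

lemma two_le_infty : (2 : ℕ∞ω) ≤ ∞ := by
  exact ENat.LEInfty.out

lemma laplacian_eq_sum {ι : Type*} [Fintype ι] {f : E → ℝ} {x : E} (hf : ContDiffAt ℝ 2 f x)
    (v : OrthonormalBasis ι ℝ E) :
    Δ f x = ∑ i, fderiv ℝ (fun y => fderiv ℝ f y (v i)) x (v i) := by
  rw [laplacian_eq_iteratedFDeriv_orthonormalBasis f v]
  apply Finset.sum_congr rfl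
  intro i _
  rw [iteratedFDeriv_two_apply]
  have hd : DifferentiableAt ℝ (fderiv ℝ f) x :=
    (hf.fderiv_right (m := 1) (by norm_num)).differentiableAt (by norm_num)
  rw [fderiv_clm_apply hd (differentiableAt_const _)]
  simp

lemma negLapPow_succ (m : ℕ) (f : E → ℝ) : negLapPow (m + 1) f = -(Δ (negLapPow m f)) := by
  unfold negLapPow
  rw [Function.iterate_succ_apply']

lemma negLapPow_succ' (m : ℕ) (f : E → ℝ) : negLapPow (m + 1) f = negLapPow m (-(Δ f)) := by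
  unfold negLapPow
  rw [Function.iterate_succ_apply]

lemma contDiff_dd {f : E → ℝ} (hf : ContDiff ℝ ∞ f) (v : E) :
    ContDiff ℝ ∞ (fun y => fderiv ℝ f y v) :=
  (hf.fderiv_right (m := ∞) (by simp)).clm_apply contDiff_const

lemma contDiff_laplacian {f : E → ℝ} (hf : ContDiff ℝ ∞ f) : ContDiff ℝ ∞ (Δ f) := by
  have h : Δ f = fun x => ∑ i, fderiv ℝ (fun y => fderiv ℝ f y ((stdOrthonormalBasis ℝ E) i)) x
      ((stdOrthonormalBasis ℝ E) i) := by
    funext x
    exact laplacian_eq_sum (hf.contDiffAt.of_le two_le_infty) _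
  rw [h]
  apply ContDiff.sum
  intro i _
  exact contDiff_dd (contDiff_dd hf _) _

lemma contDiff_negLapPow {f : E → ℝ} (hf : ContDiff ℝ ∞ f) (m : ℕ) :
    ContDiff ℝ ∞ (negLapPow m f) := by
  induction m with
  | zero => simpa [negLapPow] using hf
  | succ m ih =>
    rw [negLapPow_succ]
    exact (contDiff_laplacian ih).neg

section parts

variable [MeasurableSpace E] [BorelSpace E]

lemma ibp {f φ : E → ℝ} (hf : ContDiff ℝ ∞ f) (hφ : ContDiff ℝ ∞ φ)
    (hc : HasCompactSupport φ) (v : E) :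
    ∫ x, f x * fderiv ℝ φ x v = -∫ x, fderiv ℝ f x v * φ x := by
  have hdφ : Continuous fun x => fderiv ℝ φ x v := (contDiff_dd hφ v).continuous
  have hdf : Continuous fun x => fderiv ℝ f x v := (contDiff_dd hf v).continuous
  have hcd : HasCompactSupport fun x => fderiv ℝ φ x v := hc.fderiv_apply ℝ v
  apply integral_mul_fderiv_eq_neg_fderiv_mul_of_integrable
  · exact (hdf.mul hφ.continuous).integrable_of_hasCompactSupport hc.mul_left
  · exact (hf.continuous.mul hdφ).integrable_of_hasCompactSupport hcd.mul_left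
  · exact (hf.continuous.mul hφ.continuous).integrable_of_hasCompactSupport hc.mul_left
  · intro x _
    exact (hf.differentiable (by simp)) x
  · intro x _
    exact (hφ.differentiable (by simp)) x

lemma integral_mul_laplacian {f φ : E → ℝ} (hf : ContDiff ℝ ∞ f) (hφ : ContDiff ℝ ∞ φ)
    (hc : HasCompactSupport φ) :
    ∫ x, f x * Δ φ x = ∫ x, Δ f x * φ x := by
  set v := stdOrthonormalBasis ℝ E with hv
  have h1 : ∀ x, Δ φ x = ∑ i, fderiv ℝ (fun y => fderiv ℝ φ y (v i)) x (v i) := fun x =>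
    laplacian_eq_sum (hφ.contDiffAt.of_le two_le_infty) v
  have h2 : ∀ x, Δ f x = ∑ i, fderiv ℝ (fun y => fderiv ℝ f y (v i)) x (v i) := fun x =>
    laplacian_eq_sum (hf.contDiffAt.of_le two_le_infty) v
  simp only [h1, h2, Finset.mul_sum, Finset.sum_mul]
  rw [integral_finsetSum, integral_finsetSum]
  · apply Finset.sum_congr rfl
    intro i _
    rw [ibp hf (contDiff_dd hφ (v i)) (hc.fderiv_apply ℝ (v i)) (v i)]
    rw [ibp (contDiff_dd hf (v i)) hφ hc (v i), neg_neg]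
  · intro i _
    exact ((contDiff_dd (contDiff_dd hf _) _).continuous.mul
      hφ.continuous).integrable_of_hasCompactSupport hc.mul_left
  · intro i _
    exact (hf.continuous.mul (contDiff_dd (contDiff_dd hφ _) _).continuous
      ).integrable_of_hasCompactSupport ((hc.fderiv_apply ℝ (v i)).fderiv_apply ℝ (v i)).mul_left

lemma hasCompactSupport_laplacian {φ : E → ℝ} (hφ : ContDiff ℝ ∞ φ)
    (hc : HasCompactSupport φ) : HasCompactSupport (Δ φ) := by
  have h : Δ φ = fun x => ∑ i, fderiv ℝ (fun y => fderiv ℝ φ y ((stdOrthonormalBasis ℝ E) i)) x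
      ((stdOrthonormalBasis ℝ E) i) := by
    funext x
    exact laplacian_eq_sum (hφ.contDiffAt.of_le two_le_infty) _
  refine hc.mono' ?_
  rw [h]
  intro x hx
  by_contra hx2
  apply hx
  simp only
  apply Finset.sum_eq_zero
  intro i _
  have h3 : x ∉ tsupport (fun y => fderiv ℝ φ y ((stdOrthonormalBasis ℝ E) i)) :=
    fun h4 => hx2 (tsupport_fderiv_apply_subset ℝ _ h4)
  have h5 : x ∉ tsupport (fun z => fderiv ℝ (fun y => fderiv ℝ φ y ((stdOrthonormalBasis ℝ E) i)) z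
      ((stdOrthonormalBasis ℝ E) i)) := fun h4 => h3 (tsupport_fderiv_apply_subset ℝ _ h4)
  exact image_eq_zero_of_notMem_tsupport (f := fun z => fderiv ℝ (fun y => fderiv ℝ φ y
    ((stdOrthonormalBasis ℝ E) i)) z ((stdOrthonormalBasis ℝ E) i)) h5

lemma integral_mul_negLapPow (m : ℕ) : ∀ {f φ : E → ℝ}, ContDiff ℝ ∞ f → ContDiff ℝ ∞ φ →
    HasCompactSupport φ → ∫ x, f x * negLapPow m φ x = ∫ x, negLapPow m f x * φ x := by
  induction m with
  | zero => intro f φ _ _ _; simp [negLapPow]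
  | succ m ih =>
    intro f φ hf hφ hc
    rw [negLapPow_succ', negLapPow_succ]
    have h0 := ih (f := f) (φ := -(Δ φ)) hf (contDiff_laplacian hφ).neg
      (hasCompactSupport_laplacian hφ hc).neg
    rw [h0]
    have h1 := integral_mul_laplacian (contDiff_negLapPow hf m) hφ hc
    simp only [Pi.neg_apply, mul_neg, neg_mul, integral_neg]
    rw [h1]

end parts

/-- The Laplacian of `g(|x|^2) k(<e,x>)`. -/
lemma laplacian_prod {e : E} (he : ‖e‖ = 1) {g g1 k k1 : ℝ → ℝ} {g2 k2 : ℝ} {x : E}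
    (hg : ∀ᶠ s in 𝓝 (‖x‖ ^ 2), HasDerivAt g (g1 s) s) (hg1 : HasDerivAt g1 g2 (‖x‖ ^ 2))
    (hk : ∀ᶠ s in 𝓝 ⟪e, x⟫_ℝ, HasDerivAt k (k1 s) s) (hk1 : HasDerivAt k1 k2 ⟪e, x⟫_ℝ)
    (hC : ContDiffAt ℝ 2 (fun y : E => g (‖y‖ ^ 2) * k ⟪e, y⟫_ℝ) x) :
    Δ (fun y : E => g (‖y‖ ^ 2) * k ⟪e, y⟫_ℝ) x =
      k ⟪e, x⟫_ℝ * (4 * ‖x‖ ^ 2 * g2 + 2 * (Module.finrank ℝ E) * g1 (‖x‖ ^ 2)) +
        4 * ⟪e, x⟫_ℝ * g1 (‖x‖ ^ 2) * k1 ⟪e, x⟫_ℝ + g (‖x‖ ^ 2) * k2 := by
  set v := stdOrthonormalBasis ℝ E with hv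
  have hq : ∀ y : E, HasFDerivAt (fun y : E => ‖y‖ ^ 2) ((2 : ℝ) • innerSL ℝ y) y := by
    intro y
    have h := (hasStrictFDerivAt_norm_sq y).hasFDerivAt
    have h2 : (2 : ℝ) • innerSL ℝ y = (2 : ℕ) • innerSL ℝ y := by
      rw [two_smul, two_smul]
    rw [h2]
    exact h
  have hl : ∀ y : E, HasFDerivAt (fun y : E => ⟪e, y⟫_ℝ) (innerSL ℝ e) y := by
    intro y
    exact (innerSL ℝ e).hasFDerivAt
  -- first derivative near `x`
  have h1 : ∀ᶠ y in 𝓝 x, HasFDerivAt (fun y : E => g (‖y‖ ^ 2) * k ⟪e, y⟫_ℝ)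
      (g (‖y‖ ^ 2) • (k1 ⟪e, y⟫_ℝ • innerSL ℝ e) +
        k ⟪e, y⟫_ℝ • (g1 (‖y‖ ^ 2) • ((2 : ℝ) • innerSL ℝ y))) y := by
    have c1 : ∀ᶠ y in 𝓝 x, HasDerivAt g (g1 (‖y‖ ^ 2)) (‖y‖ ^ 2) :=
      (hq x).continuousAt.eventually hg
    have c2 : ∀ᶠ y in 𝓝 x, HasDerivAt k (k1 ⟪e, y⟫_ℝ) ⟪e, y⟫_ℝ :=
      (hl x).continuousAt.eventually hk
    filter_upwards [c1, c2] with y hy1 hy2
    exact (hy1.comp_hasFDerivAt y (hq y)).mul (hy2.comp_hasFDerivAt y (hl y))
  rw [laplacian_eq_sum hC v]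
  have key : ∀ i, fderiv ℝ (fun y => fderiv ℝ (fun y : E => g (‖y‖ ^ 2) * k ⟪e, y⟫_ℝ) y (v i)) x
      (v i) = 4 * k ⟪e, x⟫_ℝ * g2 * ⟪x, v i⟫_ℝ ^ 2 +
        2 * k ⟪e, x⟫_ℝ * g1 (‖x‖ ^ 2) +
        4 * g1 (‖x‖ ^ 2) * k1 ⟪e, x⟫_ℝ * (⟪e, v i⟫_ℝ * ⟪v i, x⟫_ℝ) +
        g (‖x‖ ^ 2) * k2 * ⟪e, v i⟫_ℝ ^ 2 := by
    intro i
    have h2 : (fun y => fderiv ℝ (fun y : E => g (‖y‖ ^ 2) * k ⟪e, y⟫_ℝ) y (v i)) =ᶠ[𝓝 x]
        fun y => g (‖y‖ ^ 2) * (k1 ⟪e, y⟫_ℝ * ⟪e, v i⟫_ℝ) +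
          k ⟪e, y⟫_ℝ * (g1 (‖y‖ ^ 2) * (2 * ⟪v i, y⟫_ℝ)) := by
      filter_upwards [h1] with y hy
      rw [hy.fderiv]
      simp [real_inner_comm]
    rw [h2.fderiv_eq]
    have hgx : HasFDerivAt (fun y : E => g (‖y‖ ^ 2)) (g1 (‖x‖ ^ 2) • ((2 : ℝ) • innerSL ℝ x)) x :=
      hg.self_of_nhds.comp_hasFDerivAt x (hq x)
    have hkx : HasFDerivAt (fun y : E => k ⟪e, y⟫_ℝ) (k1 ⟪e, x⟫_ℝ • innerSL ℝ e) x :=
      hk.self_of_nhds.comp_hasFDerivAt x (hl x)
    have hg1x : HasFDerivAt (fun y : E => g1 (‖y‖ ^ 2)) (g2 • ((2 : ℝ) • innerSL ℝ x)) x :=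
      hg1.comp_hasFDerivAt x (hq x)
    have hk1x : HasFDerivAt (fun y : E => k1 ⟪e, y⟫_ℝ) (k2 • innerSL ℝ e) x :=
      hk1.comp_hasFDerivAt x (hl x)
    have hvi : HasFDerivAt (fun y : E => ⟪v i, y⟫_ℝ) (innerSL ℝ (v i)) x :=
      (innerSL ℝ (v i)).hasFDerivAt
    have h3 := (hgx.mul (hk1x.mul_const ⟪e, v i⟫_ℝ)).add
      (hkx.mul (hg1x.mul (hvi.const_mul 2)))
    have h4 := h3.fderiv
    erw [h4]
    have hvv : ⟪v i, v i⟫_ℝ = 1 := by
      rw [real_inner_self_eq_norm_sq, v.norm_eq_one]; norm_num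
    simp only [add_apply, smul_apply, smul_eq_mul, Pi.mul_apply,
      innerSL_apply_apply, hvv, real_inner_comm (v i) x, mul_one]
    ring
  rw [Finset.sum_congr rfl fun i _ => key i]
  have s1 : ∑ i, ⟪x, v i⟫_ℝ ^ 2 = ‖x‖ ^ 2 := by
    have := v.sum_sq_norm_inner_left x
    simpa using this
  have s2 : ∑ i, ⟪e, v i⟫_ℝ * ⟪v i, x⟫_ℝ = ⟪e, x⟫_ℝ := v.sum_inner_mul_inner e x
  have s3 : ∑ i, ⟪e, v i⟫_ℝ ^ 2 = 1 := by
    have := v.sum_sq_norm_inner_left e
    rw [he] at this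
    simpa using this
  simp only [Finset.sum_add_distrib, ← Finset.mul_sum, s1, s2, s3, Finset.sum_const,
    Finset.card_univ, Fintype.card_fin, nsmul_eq_mul]
  ring

lemma lap_add {f g : E → ℝ} (hf : ContDiff ℝ ∞ f) (hg : ContDiff ℝ ∞ g) :
    Δ (fun x => f x + g x) = fun x => Δ f x + Δ g x := by
  funext x
  exact ContDiffAt.laplacian_add (hf.contDiffAt.of_le two_le_infty)
    (hg.contDiffAt.of_le two_le_infty)

lemma lap_const_mul {f : E → ℝ} (hf : ContDiff ℝ ∞ f) (c : ℝ) :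
    Δ (fun x => c * f x) = fun x => c * Δ f x := by
  funext x
  exact laplacian_smul (𝕜 := ℝ) c (hf.contDiffAt (x := x) |>.of_le two_le_infty)

lemma negLapPow_add {f g : E → ℝ} (hf : ContDiff ℝ ∞ f) (hg : ContDiff ℝ ∞ g) (k : ℕ) :
    negLapPow k (fun x => f x + g x) = fun x => negLapPow k f x + negLapPow k g x := by
  induction k with
  | zero => simp [negLapPow]
  | succ k ih =>
    rw [negLapPow_succ, ih, lap_add (contDiff_negLapPow hf k) (contDiff_negLapPow hg k),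
      negLapPow_succ, negLapPow_succ]
    funext x
    simp only [Pi.neg_apply]
    ring

lemma negLapPow_const_mul {f : E → ℝ} (hf : ContDiff ℝ ∞ f) (c : ℝ) (k : ℕ) :
    negLapPow k (fun x => c * f x) = fun x => c * negLapPow k f x := by
  induction k with
  | zero => simp [negLapPow]
  | succ k ih =>
    rw [negLapPow_succ, ih, lap_const_mul (contDiff_negLapPow hf k), negLapPow_succ]
    funext x
    simp only [Pi.neg_apply]
    ring

/-! ### The polynomial part -/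

/-- Polynomials in `|x|^2` and `<e,x>`. -/
noncomputable def pol (e : E) (a b c d k : ℝ) (x : E) : ℝ :=
  a * ‖x‖ ^ 2 + b * ⟪e, x⟫_ℝ ^ 2 + c * (‖x‖ ^ 2 * ⟪e, x⟫_ℝ ^ 2) + d * ⟪e, x⟫_ℝ ^ 4 + k

lemma contDiff_normsq : ContDiff ℝ ∞ (fun x : E => ‖x‖ ^ 2) := contDiff_norm_sq ℝ

lemma contDiff_inner_e (e : E) : ContDiff ℝ ∞ (fun x : E => ⟪e, x⟫_ℝ) :=
  (innerSL ℝ e).contDiff

lemma contDiff_pol (e : E) (a b c d k : ℝ) : ContDiff ℝ ∞ (pol e a b c d k) := by
  unfold pol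
  have h1 := contDiff_normsq (E := E)
  have h2 := contDiff_inner_e e
  exact ((((contDiff_const.mul h1).add (contDiff_const.mul (h2.pow 2))).add
    (contDiff_const.mul (h1.mul (h2.pow 2)))).add (contDiff_const.mul (h2.pow 4))).add
    contDiff_const

lemma lap_normsq (e : E) (he : ‖e‖ = 1) (x : E) :
    Δ (fun x : E => ‖x‖ ^ 2) x = 2 * (Module.finrank ℝ E) := by
  have h := laplacian_prod he (g := fun s => s) (g1 := fun _ => 1) (g2 := 0) (k := fun _ => 1)
    (k1 := fun _ => 0) (k2 := 0) (x := x) (Filter.Eventually.of_forall fun s => hasDerivAt_id s)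
    (hasDerivAt_const _ _) (Filter.Eventually.of_forall fun s => hasDerivAt_const _ _)
    (hasDerivAt_const _ _) (by
      simpa using (contDiff_normsq (E := E)).contDiffAt.of_le two_le_infty)
  simpa using h

lemma lap_inner_sq (e : E) (he : ‖e‖ = 1) (x : E) :
    Δ (fun x : E => ⟪e, x⟫_ℝ ^ 2) x = 2 := by
  have h := laplacian_prod he (g := fun _ => 1) (g1 := fun _ => 0) (g2 := 0) (k := fun s => s ^ 2)
    (k1 := fun s => 2 * s) (k2 := 2) (x := x)
    (Filter.Eventually.of_forall fun s => hasDerivAt_const _ _)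
    (hasDerivAt_const _ _) (Filter.Eventually.of_forall fun s => by
      simpa using hasDerivAt_pow 2 s)
    (by simpa using (hasDerivAt_id ⟪e, x⟫_ℝ).const_mul 2) (by
      simpa using ((contDiff_inner_e e).pow 2).contDiffAt.of_le two_le_infty)
  simpa using h

lemma lap_inner_four (e : E) (he : ‖e‖ = 1) (x : E) :
    Δ (fun x : E => ⟪e, x⟫_ℝ ^ 4) x = 12 * ⟪e, x⟫_ℝ ^ 2 := by
  have h := laplacian_prod he (g := fun _ => 1) (g1 := fun _ => 0) (g2 := 0) (k := fun s => s ^ 4)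
    (k1 := fun s => 4 * s ^ 3) (k2 := 4 * (3 * ⟪e, x⟫_ℝ ^ 2)) (x := x)
    (Filter.Eventually.of_forall fun s => hasDerivAt_const _ _)
    (hasDerivAt_const _ _) (Filter.Eventually.of_forall fun s => by
      simpa using hasDerivAt_pow 4 s)
    (by simpa using (hasDerivAt_pow 3 ⟪e, x⟫_ℝ).const_mul 4) (by
      simpa using ((contDiff_inner_e e).pow 4).contDiffAt.of_le two_le_infty)
  simp only [one_mul, mul_zero, add_zero, zero_mul] at h
  rw [h]; ring

lemma lap_mixed (e : E) (he : ‖e‖ = 1) (x : E) :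
    Δ (fun x : E => ‖x‖ ^ 2 * ⟪e, x⟫_ℝ ^ 2) x =
      (2 * (Module.finrank ℝ E) + 8) * ⟪e, x⟫_ℝ ^ 2 + 2 * ‖x‖ ^ 2 := by
  have h := laplacian_prod he (g := fun s => s) (g1 := fun _ => 1) (g2 := 0) (k := fun s => s ^ 2)
    (k1 := fun s => 2 * s) (k2 := 2) (x := x)
    (Filter.Eventually.of_forall fun s => hasDerivAt_id s)
    (hasDerivAt_const _ _) (Filter.Eventually.of_forall fun s => by
      simpa using hasDerivAt_pow 2 s)
    (by simpa using (hasDerivAt_id ⟪e, x⟫_ℝ).const_mul 2)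
    ((contDiff_normsq.mul ((contDiff_inner_e e).pow 2)).contDiffAt.of_le two_le_infty)
  rw [h]; ring

lemma lap_pol (e : E) (he : ‖e‖ = 1) (a b c d k : ℝ) :
    Δ (pol e a b c d k) = pol e (2 * c) (c * (2 * (Module.finrank ℝ E) + 8) + 12 * d) 0 0
      (2 * (Module.finrank ℝ E) * a + 2 * b) := by
  have h1 := contDiff_normsq (E := E)
  have h2 := contDiff_inner_e e
  have e0 : pol e a b c d k = fun x => (((a * ‖x‖ ^ 2 + b * ⟪e, x⟫_ℝ ^ 2) +
    c * (‖x‖ ^ 2 * ⟪e, x⟫_ℝ ^ 2)) + d * ⟪e, x⟫_ℝ ^ 4) + k := rfl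
  rw [e0, lap_add ((((contDiff_const.mul h1).add (contDiff_const.mul (h2.pow 2))).add
    (contDiff_const.mul (h1.mul (h2.pow 2)))).add (contDiff_const.mul (h2.pow 4)))
    contDiff_const,
    lap_add (((contDiff_const.mul h1).add (contDiff_const.mul (h2.pow 2))).add
    (contDiff_const.mul (h1.mul (h2.pow 2)))) (contDiff_const.mul (h2.pow 4)),
    lap_add ((contDiff_const.mul h1).add (contDiff_const.mul (h2.pow 2)))
    (contDiff_const.mul (h1.mul (h2.pow 2))),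
    lap_add (contDiff_const.mul h1) (contDiff_const.mul (h2.pow 2)),
    lap_const_mul h1, lap_const_mul (h2.pow 2), lap_const_mul (h1.mul (h2.pow 2)),
    lap_const_mul (h2.pow 4)]
  funext x
  simp only [laplacian_const, lap_normsq e he, lap_inner_sq e he, lap_inner_four e he,
    lap_mixed e he, Pi.zero_apply]
  unfold pol
  ring

lemma negLapPow_pol (e : E) (he : ‖e‖ = 1) {m : ℕ} (hm : 3 ≤ m) :
    negLapPow m (pol e (-1) 1 (-1) 1 0) = 0 := by
  have hz : ∀ k, negLapPow k (0 : E → ℝ) = 0 := by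
    intro k
    induction k with
    | zero => simp [negLapPow]
    | succ k ih =>
      rw [negLapPow_succ, ih]
      have : Δ (0 : E → ℝ) = 0 := laplacian_const (c := (0 : ℝ))
      rw [this, neg_zero]
  obtain ⟨k, rfl⟩ : ∃ k, m = k + 3 := ⟨m - 3, by omega⟩
  have hneg : ∀ a b c d k : ℝ, -(pol e a b c d k) = pol e (-a) (-b) (-c) (-d) (-k) := by
    intro a b c d k
    funext x
    simp only [Pi.neg_apply, pol]
    ring
  have hzero : pol e 0 0 0 0 0 = 0 := by
    funext x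
    simp [pol]
  have h3 : negLapPow (k + 3) (pol e (-1) 1 (-1) 1 0) = negLapPow k (0 : E → ℝ) := by
    rw [negLapPow_succ', lap_pol e he, hneg, negLapPow_succ', lap_pol e he, hneg,
      negLapPow_succ', lap_pol e he, hneg, ← hzero]
    congr 2 <;> ring
  rw [h3, hz]

/-! ### The logarithmic part -/

/-- A smooth function on `ℝ` that equals `log s / 2` for `s ≥ 1`. -/
noncomputable def eta (s : ℝ) : ℝ := 1 / 2 * (Real.smoothTransition (2 * s - 1) * Real.log s)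

lemma eta_of_one_le {s : ℝ} (hs : 1 ≤ s) : eta s = 1 / 2 * Real.log s := by
  unfold eta
  rw [Real.smoothTransition.one_of_one_le (by linarith), one_mul]

lemma contDiff_eta : ContDiff ℝ ∞ eta := by
  rw [contDiff_iff_contDiffAt]
  intro s
  by_cases hs : s < 1 / 2
  · have h : eta =ᶠ[𝓝 s] fun _ => 0 := by
      filter_upwards [Iio_mem_nhds hs] with y hy
      have hy' : y < 1 / 2 := hy
      unfold eta
      rw [Real.smoothTransition.zero_of_nonpos (by linarith), zero_mul, mul_zero]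
    exact contDiffAt_const.congr_of_eventuallyEq h
  · have hs0 : s ≠ 0 := by
      intro h0
      apply hs
      rw [h0]
      norm_num
    unfold eta
    have h1 : ContDiffAt ℝ ∞ (fun s : ℝ => Real.smoothTransition (2 * s - 1)) s := by
      have h2 : ContDiff ℝ ∞ (fun s : ℝ => 2 * s - 1) := by fun_prop
      exact (Real.smoothTransition.contDiff.comp h2).contDiffAt
    exact contDiffAt_const.mul (h1.mul (Real.contDiffAt_log.mpr hs0))

lemma eta_le {s : ℝ} (hs : 0 ≤ s) : Real.exp (2 * eta s) ≤ 1 + s := by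
  by_cases h1 : 1 ≤ s
  · rw [eta_of_one_le h1]
    have : 2 * (1 / 2 * Real.log s) = Real.log s := by ring
    rw [this, Real.exp_log (by linarith)]
    linarith
  · have h2 : Real.log s ≤ 0 := Real.log_nonpos hs (by linarith)
    have h3 : eta s ≤ 0 := by
      unfold eta
      have := mul_nonneg (Real.smoothTransition.nonneg (2 * s - 1)) (neg_nonneg.mpr h2)
      nlinarith
    have h4 : Real.exp (2 * eta s) ≤ 1 := Real.exp_le_one_iff.mpr (by linarith)
    linarith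

/-- The logarithmic part of the solution. -/
noncomputable def logPart (x : E) : ℝ := eta (‖x‖ ^ 2)

lemma contDiff_logPart : ContDiff ℝ ∞ (logPart : E → ℝ) :=
  contDiff_eta.comp contDiff_normsq

lemma lap_inv_pow (e : E) (he : ‖e‖ = 1) (k : ℕ) {x : E} (hx : 1 < ‖x‖) :
    Δ (fun y : E => ((‖y‖ ^ 2) ^ k)⁻¹) x =
      2 * k * (2 * (k + 1) - (Module.finrank ℝ E)) * ((‖x‖ ^ 2) ^ (k + 1))⁻¹ := by
  have hq : (0 : ℝ) < ‖x‖ ^ 2 := by positivity
  have hne : ∀ᶠ s in 𝓝 (‖x‖ ^ 2), HasDerivAt (fun s : ℝ => (s ^ k)⁻¹)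
      (-(k * (s ^ (k + 1))⁻¹)) s := by
    filter_upwards [Ioi_mem_nhds hq] with s hs
    have hs0 : s ≠ 0 := ne_of_gt hs
    have h1 := (hasDerivAt_pow k s).fun_inv (pow_ne_zero k hs0)
    refine h1.congr_deriv ?_
    rcases Nat.eq_zero_or_pos k with hk | hk
    · subst hk; simp
    · obtain ⟨j, rfl⟩ : ∃ j, k = j + 1 := ⟨k - 1, by omega⟩
      simp only [Nat.add_sub_cancel]
      field_simp
      ring
  have hne2 : HasDerivAt (fun s : ℝ => -((k : ℝ) * (s ^ (k + 1))⁻¹))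
      ((k : ℝ) * ((k + 1) * ((‖x‖ ^ 2) ^ (k + 2))⁻¹)) (‖x‖ ^ 2) := by
    have h1 := (((hasDerivAt_pow (k + 1) (‖x‖ ^ 2)).fun_inv
      (pow_ne_zero (k + 1) hq.ne')).const_mul (k : ℝ)).neg
    refine h1.congr_deriv ?_
    simp only [Nat.add_sub_cancel]
    push_cast
    field_simp
    ring
  have hC : ContDiffAt ℝ 2 (fun y : E => ((‖y‖ ^ 2) ^ k)⁻¹ * (1 : ℝ)) x := by
    have h1 : ContDiffAt ℝ 2 (fun y : E => ‖y‖ ^ 2) x :=
      contDiff_normsq.contDiffAt.of_le two_le_infty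
    exact ((h1.pow k).inv (pow_ne_zero k hq.ne')).mul contDiffAt_const
  have h := laplacian_prod he (g := fun s => (s ^ k)⁻¹) (k := fun _ => 1)
    (k1 := fun _ => 0) (k2 := 0) (x := x) hne hne2
    (Filter.Eventually.of_forall fun s => hasDerivAt_const _ _)
    (hasDerivAt_const _ _) hC
  simp only [mul_one] at h
  rw [h]
  field_simp
  ring

lemma lap_logPart (e : E) (he : ‖e‖ = 1) {x : E} (hx : 1 < ‖x‖) :
    Δ (logPart : E → ℝ) x = ((Module.finrank ℝ E) - 2) * ((‖x‖ ^ 2) ^ 1)⁻¹ := by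
  have hq : (1 : ℝ) < ‖x‖ ^ 2 := by nlinarith
  have hq0 : (0 : ℝ) < ‖x‖ ^ 2 := by positivity
  have hC : ContDiffAt ℝ 2 (fun y : E => eta (‖y‖ ^ 2) * (1 : ℝ)) x := by
    have h1 := (contDiff_logPart (E := E)).contDiffAt (x := x) |>.of_le two_le_infty
    simp only [mul_one]
    exact h1
  have hg : ∀ᶠ s in 𝓝 (‖x‖ ^ 2), HasDerivAt eta (1 / 2 * s⁻¹) s := by
    filter_upwards [Ioi_mem_nhds hq] with s hs
    have hs' : 1 < s := hs
    have h1 : HasDerivAt (fun s => 1 / 2 * Real.log s) (1 / 2 * s⁻¹) s :=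
      (Real.hasDerivAt_log (by linarith)).const_mul _
    refine h1.congr_of_eventuallyEq ?_
    filter_upwards [Ioi_mem_nhds hs'] with r hr
    exact eta_of_one_le (le_of_lt hr)
  have hg1 : HasDerivAt (fun s : ℝ => 1 / 2 * s⁻¹) (1 / 2 * (-((‖x‖ ^ 2) ^ 2)⁻¹)) (‖x‖ ^ 2) :=
    (hasDerivAt_inv hq0.ne').const_mul _
  have h := laplacian_prod he (g := eta) (k := fun _ => 1)
    (k1 := fun _ => 0) (k2 := 0) (x := x) hg hg1
    (Filter.Eventually.of_forall fun s => hasDerivAt_const _ _)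
    (hasDerivAt_const _ _) hC
  simp only [mul_one] at h
  have h0 : (logPart : E → ℝ) = fun y : E => eta (‖y‖ ^ 2) := rfl
  rw [h0, h]
  field_simp
  ring

lemma negLapPow_logPart (e : E) (he : ‖e‖ = 1) (k : ℕ) :
    ∃ c : ℝ, ∀ x : E, 1 < ‖x‖ → negLapPow (k + 1) (logPart : E → ℝ) x =
      c * ((‖x‖ ^ 2) ^ (k + 1))⁻¹ := by
  induction k with
  | zero =>
    refine ⟨-((Module.finrank ℝ E) - 2), fun x hx => ?_⟩
    rw [negLapPow_succ]
    have : negLapPow 0 (logPart : E → ℝ) = logPart := by simp [negLapPow]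
    rw [this, Pi.neg_apply, lap_logPart e he hx]
    ring
  | succ k ih =>
    obtain ⟨c, hc⟩ := ih
    refine ⟨-(c * (2 * (k + 1 : ℕ) * (2 * ((k + 1 : ℕ) + 1) - (Module.finrank ℝ E)))),
      fun x hx => ?_⟩
    rw [negLapPow_succ, Pi.neg_apply]
    have hev : negLapPow (k + 1) (logPart : E → ℝ) =ᶠ[𝓝 x]
        (c • fun y : E => ((‖y‖ ^ 2) ^ (k + 1))⁻¹) := by
      have hopen : IsOpen {y : E | 1 < ‖y‖} := isOpen_lt continuous_const continuous_norm
      filter_upwards [hopen.mem_nhds hx] with y hy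
      exact hc y hy
    have hC : ContDiffAt ℝ 2 (fun y : E => ((‖y‖ ^ 2) ^ (k + 1))⁻¹) x := by
      have hq : (0 : ℝ) < ‖x‖ ^ 2 := by positivity
      have h1 : ContDiffAt ℝ 2 (fun y : E => ‖y‖ ^ 2) x :=
        contDiff_normsq.contDiffAt.of_le two_le_infty
      exact ((h1.pow (k + 1)).inv (pow_ne_zero _ hq.ne'))
    rw [(laplacian_congr_nhds hev).eq_of_nhds, laplacian_smul (𝕜 := ℝ) c hC,
      lap_inv_pow e he (k + 1) hx, smul_eq_mul]
    ring

lemma negLapPow_logPart_eq_zero (e : E) (he : ‖e‖ = 1) {m : ℕ} (hm : 2 ≤ m)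
    (hdim : Module.finrank ℝ E = 2 * m) {x : E} (hx : 1 < ‖x‖) :
    negLapPow m (logPart : E → ℝ) x = 0 := by
  obtain ⟨k, rfl⟩ : ∃ k, m = k + 2 := ⟨m - 2, by omega⟩
  obtain ⟨c, hc⟩ := negLapPow_logPart e he k
  rw [negLapPow_succ, Pi.neg_apply]
  have hev : negLapPow (k + 1) (logPart : E → ℝ) =ᶠ[𝓝 x]
      (c • fun y : E => ((‖y‖ ^ 2) ^ (k + 1))⁻¹) := by
    have hopen : IsOpen {y : E | 1 < ‖y‖} := isOpen_lt continuous_const continuous_norm
    filter_upwards [hopen.mem_nhds hx] with y hy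
    exact hc y hy
  have hC : ContDiffAt ℝ 2 (fun y : E => ((‖y‖ ^ 2) ^ (k + 1))⁻¹) x := by
    have hq : (0 : ℝ) < ‖x‖ ^ 2 := by positivity
    have h1 : ContDiffAt ℝ 2 (fun y : E => ‖y‖ ^ 2) x :=
      contDiff_normsq.contDiffAt.of_le two_le_infty
    exact ((h1.pow (k + 1)).inv (pow_ne_zero _ hq.ne'))
  rw [(laplacian_congr_nhds hev).eq_of_nhds, laplacian_smul (𝕜 := ℝ) c hC,
    lap_inv_pow e he (k + 1) hx, hdim]
  push_cast
  rw [show (2 * ((k : ℝ) + 1 + 1) - 2 * ((k : ℝ) + 2)) = 0 by ring]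
  simp

end Aux

/-- The dominating function is integrable. -/
lemma integrable_dom {n : ℕ} (hn : 5 ≤ n) (i0 : Fin n) {b : ℝ} (hb : 0 < b) :
    Integrable (fun x : EuclideanSpace ℝ (Fin n) =>
      (1 + (x i0) ^ 2) * Real.exp (-(b * (‖x‖ ^ 2 - (x i0) ^ 2) * (1 + (x i0) ^ 2)))) := by
  obtain ⟨k, rfl⟩ : ∃ k, n = k + 1 := ⟨n - 1, by omega⟩
  have hk : 4 ≤ k := by omega
  -- the function on the product
  set F : ℝ × (Fin k → ℝ) → ℝ := fun p =>
    (1 + p.1 ^ 2) * ∏ j, Real.exp (-(b * (1 + p.1 ^ 2)) * (p.2 j) ^ 2) with hF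
  have hFint : Integrable F (volume.prod volume) := by
    have hmeas : AEStronglyMeasurable F (volume.prod volume) := by
      apply Continuous.aestronglyMeasurable
      rw [hF]
      fun_prop
    rw [integrable_prod_iff hmeas]
    constructor
    · refine Filter.Eventually.of_forall fun t => ?_
      simp only [hF]
      apply Integrable.const_mul
      apply Integrable.fintype_prod (f := fun (_ : Fin k) (s : ℝ) =>
        Real.exp (-(b * (1 + t ^ 2)) * s ^ 2))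
      intro _
      exact integrable_exp_neg_mul_sq (by positivity)
    · have hval : ∀ t : ℝ, ∫ y : Fin k → ℝ, ‖F (t, y)‖ =
          (1 + t ^ 2) * (√(π / (b * (1 + t ^ 2)))) ^ k := by
        intro t
        have h1 : ∀ y : Fin k → ℝ, ‖F (t, y)‖ = (1 + t ^ 2) *
            ∏ j, Real.exp (-(b * (1 + t ^ 2)) * (y j) ^ 2) := by
          intro y
          rw [Real.norm_of_nonneg]
          simp only [hF]
          exact mul_nonneg (by positivity) (Finset.prod_nonneg fun j _ => (Real.exp_pos _).le)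
        simp only [h1]
        rw [integral_const_mul, MeasureTheory.integral_fintype_prod_volume_eq_prod
          (fun (_ : Fin k) (s : ℝ) => Real.exp (-(b * (1 + t ^ 2)) * s ^ 2))]
        simp only [integral_gaussian, Finset.prod_const, Finset.card_univ, Fintype.card_fin]
      simp only [hval]
      have hbound : ∀ t : ℝ, ‖(1 + t ^ 2) * (√(π / (b * (1 + t ^ 2)))) ^ k‖ ≤
          (√(π / b)) ^ k * (1 + t ^ 2)⁻¹ := by
        intro t
        have h1 : (0 : ℝ) < 1 + t ^ 2 := by positivity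
        rw [Real.norm_of_nonneg (by positivity)]
        have h2 : √(π / (b * (1 + t ^ 2))) = √(π / b) * √((1 + t ^ 2)⁻¹) := by
          rw [← Real.sqrt_mul (by positivity)]
          congr 1
          field_simp
        rw [h2, mul_pow]
        have h3 : (√((1 + t ^ 2)⁻¹)) ^ k ≤ ((1 + t ^ 2)⁻¹) ^ 2 := by
          have h4 : √((1 + t ^ 2)⁻¹) ≤ 1 := by
            rw [Real.sqrt_le_one]
            exact inv_le_one_of_one_le₀ (by nlinarith [sq_nonneg t])
          have h5 : (√((1 + t ^ 2)⁻¹)) ^ k ≤ (√((1 + t ^ 2)⁻¹)) ^ 4 :=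
            pow_le_pow_of_le_one (Real.sqrt_nonneg _) h4 hk
          have h6 : (√((1 + t ^ 2)⁻¹)) ^ 4 = ((1 + t ^ 2)⁻¹) ^ 2 := by
            rw [show (4 : ℕ) = 2 * 2 by norm_num, pow_mul, Real.sq_sqrt (by positivity)]
          rwa [h6] at h5
        calc (1 + t ^ 2) * (√(π / b) ^ k * √((1 + t ^ 2)⁻¹) ^ k)
            ≤ (1 + t ^ 2) * (√(π / b) ^ k * ((1 + t ^ 2)⁻¹) ^ 2) := by gcongr
          _ = √(π / b) ^ k * (1 + t ^ 2)⁻¹ := by field_simp
      refine Integrable.mono' (integrable_inv_one_add_sq.const_mul _) ?_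
        (Filter.Eventually.of_forall hbound)
      apply Continuous.aestronglyMeasurable
      have : ∀ t : ℝ, b * (1 + t ^ 2) ≠ 0 := fun t => by positivity
      fun_prop (disch := assumption)
  have e1 := volume_preserving_piFinSuccAbove (fun _ : Fin (k + 1) => ℝ) i0
  have e2 := EuclideanSpace.volume_preserving_symm_measurableEquiv_toLp (Fin (k + 1))
  have h3 := (e1.comp e2).integrable_comp_of_integrable hFint
  refine h3.congr (Filter.Eventually.of_forall fun x => ?_)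
  have h4 : ‖x‖ ^ 2 - (x i0) ^ 2 = ∑ j, (x (i0.succAbove j)) ^ 2 := by
    rw [EuclideanSpace.norm_sq_eq, Fin.sum_univ_succAbove _ i0]
    simp
  have h5 : (MeasurableEquiv.piFinSuccAbove (fun _ : Fin (k + 1) => ℝ) i0)
      ((MeasurableEquiv.toLp 2 (Fin (k + 1) → ℝ)).symm x) =
      (x i0, fun j => x (i0.succAbove j)) := rfl
  simp only [Function.comp_apply, h5, hF, h4]
  rw [← Real.exp_sum]
  congr 2
  rw [← Finset.mul_sum]
  ring


/-! ### The solution -/

/-- `u(x) = -(|x|^2 - x_{i0}^2)(1 + x_{i0}^2) + (1/m) L(x)`, where `L = log |x|` for `|x| ≥ 1`. -/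
noncomputable def sol {m : ℕ} (i0 : Fin (2 * m)) (x : EuclideanSpace ℝ (Fin (2 * m))) : ℝ :=
  pol (EuclideanSpace.single i0 (1 : ℝ)) (-1) 1 (-1) 1 0 x + 1 / m * logPart x

/-- `V = e^{-2mu} (-Δ)^m u`. -/
noncomputable def pot {m : ℕ} (i0 : Fin (2 * m)) (x : EuclideanSpace ℝ (Fin (2 * m))) : ℝ :=
  negLapPow m (sol i0) x * Real.exp (-(2 * m * sol i0 x))

lemma norm_single_one {m : ℕ} (i0 : Fin (2 * m)) :
    ‖(EuclideanSpace.single i0 (1 : ℝ) : EuclideanSpace ℝ (Fin (2 * m)))‖ = 1 := by simp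

lemma contDiff_sol {m : ℕ} (i0 : Fin (2 * m)) : ContDiff ℝ ∞ (sol i0) :=
  (contDiff_pol _ _ _ _ _ _).add (contDiff_const.mul contDiff_logPart)

lemma contDiff_pot {m : ℕ} (i0 : Fin (2 * m)) : ContDiff ℝ ∞ (pot i0) := by
  have h := contDiff_sol i0
  exact (contDiff_negLapPow h m).mul ((contDiff_const.mul h).neg.exp)

lemma negLapPow_sol {m : ℕ} (hm : 3 ≤ m) (i0 : Fin (2 * m)) {x : EuclideanSpace ℝ (Fin (2 * m))}
    (hx : 1 < ‖x‖) : negLapPow m (sol i0) x = 0 := by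
  have h1 : negLapPow m (sol i0) = fun x =>
      negLapPow m (pol (EuclideanSpace.single i0 (1 : ℝ)) (-1) 1 (-1) 1 0) x +
        negLapPow m (fun x => 1 / m * logPart x) x :=
    negLapPow_add (contDiff_pol _ _ _ _ _ _) (contDiff_const.mul contDiff_logPart) m
  rw [h1, negLapPow_pol _ (norm_single_one i0) hm, negLapPow_const_mul contDiff_logPart]
  simp only [Pi.zero_apply, zero_add]
  rw [negLapPow_logPart_eq_zero _ (norm_single_one i0) (by omega) (by simp) hx, mul_zero]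

lemma hasCompactSupport_pot {m : ℕ} (hm : 3 ≤ m) (i0 : Fin (2 * m)) :
    HasCompactSupport (pot i0) := by
  refine HasCompactSupport.of_support_subset_isCompact
    (isCompact_closedBall (0 : EuclideanSpace ℝ (Fin (2 * m))) 1) ?_
  intro x hx
  by_contra hx2
  apply hx
  have h1 : 1 < ‖x‖ := by simpa using hx2
  unfold pot
  rw [negLapPow_sol hm i0 h1, zero_mul]

lemma sol_eq {m : ℕ} (i0 : Fin (2 * m)) (x : EuclideanSpace ℝ (Fin (2 * m))) :
    sol i0 x = -((‖x‖ ^ 2 - (x i0) ^ 2) * (1 + (x i0) ^ 2)) + 1 / m * eta (‖x‖ ^ 2) := by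
  unfold sol pol logPart
  have h1 : ⟪(EuclideanSpace.single i0 (1 : ℝ) : EuclideanSpace ℝ (Fin (2 * m))), x⟫_ℝ = x i0 := by
    simp [EuclideanSpace.inner_single_left]
  rw [h1]
  ring

lemma integrable_exp_sol {m : ℕ} (hm : 3 ≤ m) (i0 : Fin (2 * m)) :
    Integrable (fun x : EuclideanSpace ℝ (Fin (2 * m)) => Real.exp (2 * m * sol i0 x)) := by
  have hm0 : (0 : ℝ) < m := by
    have : 0 < m := by omega
    exact_mod_cast this
  have hm1 : (1 : ℝ) ≤ m := by
    have : 1 ≤ m := by omega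
    exact_mod_cast this
  have hdom := integrable_dom (n := 2 * m) (by omega) i0 hm0
  refine hdom.mono' ?_ (Filter.Eventually.of_forall fun x => ?_)
  · apply Continuous.aestronglyMeasurable
    exact (continuous_const.mul (contDiff_sol i0).continuous).rexp
  rw [Real.norm_of_nonneg (Real.exp_pos _).le]
  set t := x i0 with ht
  set y := ‖x‖ ^ 2 - t ^ 2 with hy
  have hy0 : 0 ≤ y := by
    have h1 : |x i0| ≤ ‖x‖ := by
      simpa using PiLp.norm_apply_le x i0
    have h2 : (x i0) ^ 2 ≤ ‖x‖ ^ 2 := by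
      rw [← sq_abs (x i0)]
      exact pow_le_pow_left₀ (abs_nonneg _) h1 2
    rw [hy, ht]; linarith
  have hq : ‖x‖ ^ 2 = y + t ^ 2 := by rw [hy]; ring
  have e1 : Real.exp (2 * m * sol i0 x) =
      Real.exp (-(m * y * (1 + t ^ 2))) * (Real.exp (-(m * y * (1 + t ^ 2))) *
        Real.exp (2 * eta (‖x‖ ^ 2))) := by
    rw [sol_eq, ← Real.exp_add, ← Real.exp_add]
    congr 1
    have : (m : ℝ) * (1 / m) = 1 := by field_simp
    calc 2 * (m : ℝ) * (-((‖x‖ ^ 2 - (x i0) ^ 2) * (1 + (x i0) ^ 2)) + 1 / m * eta (‖x‖ ^ 2))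
        = -(2 * m * (y * (1 + t ^ 2))) + 2 * (m * (1 / m)) * eta (‖x‖ ^ 2) := by
          rw [hy, ht]; ring
      _ = _ := by rw [this]; ring
  rw [e1]
  have h2 : Real.exp (2 * eta (‖x‖ ^ 2)) ≤ (1 + y) * (1 + t ^ 2) := by
    refine (eta_le (sq_nonneg _)).trans ?_
    rw [hq]
    nlinarith [mul_nonneg hy0 (sq_nonneg t)]
  have h3 : (1 + y) ≤ Real.exp (m * y * (1 + t ^ 2)) := by
    have h4 : m * y * (1 + t ^ 2) + 1 ≤ Real.exp (m * y * (1 + t ^ 2)) := Real.add_one_le_exp _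
    have h5 : y ≤ m * y * (1 + t ^ 2) := by
      have h6 : 0 ≤ m * y := mul_nonneg hm0.le hy0
      have h7 : y ≤ m * y := by nlinarith
      nlinarith [mul_nonneg h6 (sq_nonneg t)]
    linarith
  have h8 : Real.exp (-(m * y * (1 + t ^ 2))) * (1 + y) ≤ 1 := by
    rw [Real.exp_neg]
    rw [inv_mul_le_iff₀ (Real.exp_pos _)]
    linarith
  calc Real.exp (-(m * y * (1 + t ^ 2))) * (Real.exp (-(m * y * (1 + t ^ 2))) *
        Real.exp (2 * eta (‖x‖ ^ 2)))
      ≤ Real.exp (-(m * y * (1 + t ^ 2))) * (Real.exp (-(m * y * (1 + t ^ 2))) *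
        ((1 + y) * (1 + t ^ 2))) := by gcongr
    _ = (1 + t ^ 2) * Real.exp (-(m * y * (1 + t ^ 2))) *
        (Real.exp (-(m * y * (1 + t ^ 2))) * (1 + y)) := by ring
    _ ≤ (1 + t ^ 2) * Real.exp (-(m * y * (1 + t ^ 2))) * 1 := by gcongr
    _ = (1 + t ^ 2) * Real.exp (-(m * y * (1 + t ^ 2))) := by ring

lemma sol_axis {m : ℕ} (i0 : Fin (2 * m)) {t : ℝ} (ht : 1 ≤ t) :
    sol i0 (EuclideanSpace.single i0 t) = 1 / m * Real.log t := by
  rw [sol_eq]
  have h1 : ‖(EuclideanSpace.single i0 t : EuclideanSpace ℝ (Fin (2 * m)))‖ ^ 2 = t ^ 2 := by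
    simp
  have h2 : (EuclideanSpace.single i0 t : EuclideanSpace ℝ (Fin (2 * m))) i0 = t := by simp
  rw [h1, h2, eta_of_one_le (by nlinarith), Real.log_pow]
  push_cast
  ring

/-- **Negative answer to Q1, for every `m ≥ 3`.**  There are a smooth compactly supported (hence
bounded) `V` and a smooth `u` on `ℝ^{2m}` with `(-Δ)^m u = V e^{2mu}` (pointwise and in the sense of
distributions), `e^{2mu} ∈ L^1`, such that `u` is not essentially bounded from above. -/
theorem result (m : ℕ) (hm : 3 ≤ m) :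
    ∃ V u : EuclideanSpace ℝ (Fin (2 * m)) → ℝ,
      ContDiff ℝ ∞ V ∧ HasCompactSupport V ∧ MemLp V ⊤ ∧
      ContDiff ℝ ∞ u ∧ (∀ x, negLapPow m u x = V x * Real.exp (2 * m * u x)) ∧
      IsDistribSolution m V u ∧
      Integrable (fun x => Real.exp (2 * m * u x)) ∧
      ¬ EssBddAbove u := by
  have hm0 : (0 : ℝ) < m := by
    have : 0 < m := by omega
    exact_mod_cast this
  set i0 : Fin (2 * m) := ⟨0, by omega⟩ with hi0
  have hV := contDiff_pot i0
  have hu := contDiff_sol i0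
  have heq : ∀ x, negLapPow m (sol i0) x = pot i0 x * Real.exp (2 * m * sol i0 x) := by
    intro x
    unfold pot
    rw [mul_assoc, ← Real.exp_add]
    simp
  refine ⟨pot i0, sol i0, hV, hasCompactSupport_pot hm i0,
    hV.continuous.memLp_of_hasCompactSupport (hasCompactSupport_pot hm i0), hu, heq, ?_,
    integrable_exp_sol hm i0, ?_⟩
  · refine ⟨hu.continuous.locallyIntegrable, fun φ hφ hc => ?_⟩
    rw [integral_mul_negLapPow m hu hφ hc]
    simp only [heq]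
  · rintro ⟨C, hC⟩
    have hopen : IsOpen {x : EuclideanSpace ℝ (Fin (2 * m)) | C < sol i0 x} :=
      isOpen_lt continuous_const hu.continuous
    have hne : {x : EuclideanSpace ℝ (Fin (2 * m)) | C < sol i0 x}.Nonempty := by
      refine ⟨EuclideanSpace.single i0 (Real.exp (m * (|C| + 1))), ?_⟩
      have h1 : (1 : ℝ) ≤ Real.exp (m * (|C| + 1)) := Real.one_le_exp (by positivity)
      simp only [Set.mem_setOf_eq]
      rw [sol_axis i0 h1, Real.log_exp]
      have h2 : 1 / (m : ℝ) * (m * (|C| + 1)) = |C| + 1 := by field_simp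
      rw [h2]
      linarith [le_abs_self C]
    have hpos := hopen.measure_pos volume hne
    have hzero : volume {x : EuclideanSpace ℝ (Fin (2 * m)) | C < sol i0 x} = 0 := by
      have h3 : volume {x : EuclideanSpace ℝ (Fin (2 * m)) | ¬ (sol i0 x ≤ C)} = 0 :=
        ae_iff.mp hC
      simpa [not_le] using h3
    exact absurd hzero hpos.ne'

end Pool.Agent.Results.MP_885c89_an.UnboundedSolutions
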